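import Pool.Agent.MP_c1891a_nt.G43.Spec

/-
Ax's theorem for a two-dimensional space of logarithmic derivatives.
-/

namespace Pool.Agent.MP_c1891a_nt.G43

open Finset Module TensorProduct

section

variable {C F Λ : Type} [Field C] [Field F] [Algebra C F] [AddCommGroup Λ]

lemma ax_ne (x : AddChar Λ F) (l : Λ) : x l ≠ 0 := (x.val_isUnit l).ne_zero

/-- the logarithmic differentials. -/
noncomputable def axw (C : Type) [Field C] [Algebra C F] (x : AddChar Λ F) :
    Λ →+ (Derivation C F F → F) where
  toFun l := fun δ => δ (x l) / x l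
  map_zero' := by ext δ; simp
  map_add' l l' := by
    ext δ
    have h1 := ax_ne x l
    have h2 := ax_ne x l'
    simp only [AddChar.map_add_eq_mul, Derivation.leibniz, smul_eq_mul, Pi.add_apply]
    field_simp
    ring

lemma axw_apply (x : AddChar Λ F) (l : Λ) (δ : Derivation C F F) :
    axw C x l δ = δ (x l) / x l := rfl

/-- the forms with constant coefficients. -/
noncomputable def axW (C : Type) [Field C] [Algebra C F] (x : AddChar Λ F) :
    C ⊗[ℤ] Λ →ₗ[C] (Derivation C F F → F) :=
  (axw C x).toIntLinearMap.liftBaseChange C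

lemma axW_tmul (x : AddChar Λ F) (s : C) (l : Λ) (δ : Derivation C F F) :
    axW C x (s ⊗ₜ l) δ = s • (δ (x l) / x l) := rfl

lemma axW_closed (x : AddChar Λ F) (D δ : Derivation C F F) (c : C ⊗[ℤ] Λ) :
    D (axW C x c δ) - δ (axW C x c D) = axW C x c ⁅D, δ⁆ := by
  induction c with
  | zero => simp
  | tmul s l =>
    have h := ax_ne x l
    simp only [axW_tmul, Derivation.map_smul, ← smul_sub, Derivation.leibniz_div,
      Derivation.commutator_apply, smul_eq_mul]
    congr 1
    field_simp
    ring
  | add c c' h h' =>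
    simp only [map_add, Pi.add_apply]
    rw [← h, ← h']; ring

lemma ax_horiz (D : Derivation C F F) (hD : ∀ f, D f = 0 → f ∈ Set.range (algebraMap C F))
    {ι : Type} (u : ι → Derivation C F F → F) (hu : ∀ k δ, D (u k δ) = u k ⁅D, δ⁆)
    (hC : LinearIndependent C u) : LinearIndependent F u := by
  classical
  rw [linearIndependent_iff']
  intro s
  induction s using Finset.induction_on with
  | empty => simp
  | insert j s hj ih =>
    intro g hg
    rw [sum_insert hj] at hg
    have hj0 : g j = 0 := by
      by_contra hne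
      have h1 : ∀ δ, u j δ + ∑ i ∈ s, (g i / g j) * u i δ = 0 := by
        intro δ
        have := congrFun hg δ
        simp only [Pi.add_apply, Pi.smul_apply, Finset.sum_apply, smul_eq_mul, Pi.zero_apply] at this
        have e : ∑ i ∈ s, (g i / g j) * u i δ = (∑ i ∈ s, g i * u i δ) / g j := by
          rw [sum_div]; exact sum_congr rfl fun i _ => by ring
        rw [e]
        field_simp
        linear_combination this
      have h2 : ∑ i ∈ s, D (g i / g j) • u i = 0 := by
        ext δ
        have a1 := congrArg D (h1 δ)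
        have a2 := h1 ⁅D, δ⁆
        simp only [map_add, map_sum, Derivation.leibniz, smul_eq_mul, hu, map_zero,
          sum_add_distrib] at a1
        simp only [Finset.sum_apply, Pi.smul_apply, smul_eq_mul, Pi.zero_apply]
        have e : ∑ i ∈ s, D (g i / g j) * u i δ = ∑ i ∈ s, u i δ * D (g i / g j) :=
          sum_congr rfl fun i _ => by ring
        rw [e]
        linear_combination a1 - a2
      have h3 : ∀ i, ∃ c : C, i ∈ s → algebraMap C F c = g i / g j := by
        intro i
        by_cases hi : i ∈ s
        · obtain ⟨c, hc⟩ := hD _ (ih _ h2 i hi)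
          exact ⟨c, fun _ => hc⟩
        · exact ⟨0, fun h => absurd h hi⟩
      choose c hc using h3
      have h4 := linearIndependent_iff'.1 hC (insert j s) (fun i => if i = j then 1 else c i) (by
        rw [sum_insert hj]
        ext δ
        simp only [if_true, one_smul, Pi.add_apply, Finset.sum_apply, Pi.smul_apply, Pi.zero_apply]
        rw [← h1 δ]
        congr 1
        refine sum_congr rfl fun i hi => ?_
        rw [if_neg (fun h : i = j => hj (h ▸ hi)), Algebra.smul_def, hc i hi]) j (mem_insert_self _ _)
      simp at h4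
    rw [hj0, zero_smul, zero_add] at hg
    intro i hi
    rcases mem_insert.1 hi with rfl | hi
    · exact hj0
    · exact ih g hg i hi

lemma ax_alg [CharZero C] (D : Derivation C F F) {y : F} (hy : IsAlgebraic C y) : D y = 0 := by
  have h1 := D.comp_aeval_eq y (minpoly C y)
  rw [minpoly.aeval, map_zero, smul_eq_mul] at h1
  have h2 : (minpoly C y).Separable := (minpoly.irreducible hy.isIntegral).separable
  exact (mul_eq_zero.1 h1.symm).resolve_left (h2.aeval_derivative_ne_zero (minpoly.aeval _ _))

lemma ax_decomp [CharZero C] (c : C ⊗[ℤ] Λ) :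
    ∃ (m : ℕ) (γ : Fin m → C) (n : Fin m → Λ), LinearIndependent ℚ γ ∧
      c = ∑ k, γ k ⊗ₜ[ℤ] n k := by
  obtain ⟨P, hP, t, rfl⟩ := TensorProduct.exists_of_fg c
  have : Module.Finite ℤ P := Module.Finite.iff_fg.2 hP
  let B := Module.finBasis ℤ P
  obtain ⟨n, rfl⟩ := TensorProduct.eq_repr_basis_left B t
  refine ⟨_, fun k => B k, n, ?_, ?_⟩
  · rw [← LinearIndependent.iff_fractionRing ℤ ℚ]
    exact B.linearIndependent.map' P.subtype (Submodule.ker_subtype P)
  · rw [Finsupp.sum_fintype _ _ (by simp), map_sum]
    simp

lemma ax_indep [CharZero C] (x : AddChar Λ F) {t : ℕ} (l : Fin t → Λ)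
    (h : LinearIndependent F fun k => axw C x (l k)) :
    AlgebraicIndependent C fun k => x (l k) := by
  classical
  have hm : ∀ α : Fin t →₀ ℕ, ∏ k, x (l k) ^ α k = x (∑ k, α k • l k) := by
    intro α
    induction (univ : Finset (Fin t)) using Finset.induction_on with
    | empty => simp
    | insert j s hj ih =>
      rw [prod_insert hj, sum_insert hj, AddChar.map_add_eq_mul, ih, AddChar.map_nsmul_eq_pow]
  have key : LinearIndependent C fun α : Fin t →₀ ℕ => x (∑ k, α k • l k) := by
    rw [linearIndependent_iff']
    intro s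
    induction s using Finset.induction_on with
    | empty => simp
    | insert β s hβ ih =>
      intro g hg
      have h1 : ∑ k, (∑ α ∈ insert β s, (g α * α k) • x (∑ k, α k • l k)) • axw C x (l k) = 0 := by
        ext δ
        have a1 := congrArg δ hg
        simp only [map_sum, Derivation.map_smul, map_zero] at a1
        simp only [Finset.sum_apply, Pi.smul_apply, smul_eq_mul, Pi.zero_apply, sum_mul]
        rw [sum_comm, ← a1]
        refine sum_congr rfl fun α _ => ?_
        have a2 : δ (x (∑ k, α k • l k)) = x (∑ k, α k • l k) * axw C x (∑ k, α k • l k) δ := by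
          rw [axw_apply, mul_div_cancel₀ _ (ax_ne x _)]
        rw [a2, map_sum (axw C x), Finset.sum_apply, mul_sum, smul_sum]
        refine sum_congr rfl fun k _ => ?_
        rw [map_nsmul, Pi.smul_apply, nsmul_eq_mul]
        simp only [Algebra.smul_def, map_mul, map_natCast]
        ring
      have h2 := Fintype.linearIndependent_iff.1 h _ h1
      have h3 : ∀ α ∈ s, g α = 0 := by
        intro α hα
        obtain ⟨k, hk⟩ : ∃ k, α k ≠ β k := by
          by_contra hc
          push Not at hc
          exact hβ ((Finsupp.ext hc : α = β) ▸ hα)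
        have h4 := ih (fun α => g α * ((α k : C) - β k)) (by
          have a1 := h2 k
          rw [sum_insert hβ] at a1 hg
          simp only [mul_sub, sub_smul, sum_sub_distrib]
          have a2 : ∑ α ∈ s, (g α * β k) • x (∑ k, α k • l k) =
              (β k : C) • ∑ α ∈ s, g α • x (∑ k, α k • l k) := by
            rw [smul_sum]; exact sum_congr rfl fun α _ => by rw [mul_comm, mul_smul]
          rw [a2, eq_neg_of_add_eq_zero_right a1, eq_neg_of_add_eq_zero_right hg, mul_comm,
            mul_smul, smul_neg, sub_self]) α hα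
        exact (mul_eq_zero.1 h4).resolve_right (sub_ne_zero.2 (by exact_mod_cast hk))
      rw [sum_insert hβ, sum_eq_zero (s := s) (fun α hα => by rw [h3 α hα, zero_smul]),
        add_zero] at hg
      intro α hα
      rcases mem_insert.1 hα with rfl | hα
      · exact (smul_eq_zero.1 hg).resolve_right (ax_ne x _)
      · exact h3 α hα
  rw [algebraicIndependent_iff]
  intro p hp
  rw [MvPolynomial.aeval_def, MvPolynomial.eval₂_eq'] at hp
  simp only [hm, ← Algebra.smul_def] at hp
  have := linearIndependent_iff'.1 key _ _ hp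
  ext α
  by_contra hα
  exact hα (this α (MvPolynomial.mem_support_iff.2 hα))

end

theorem sAx (h : SRos) : SAx := by
  intro C F Λ _ _ _ _ _ _ _ D x v w a b L hD hab hx ⟨l₀, l₁, hl⟩ hL
  classical
  let vC : C ⊗[ℤ] Λ →ₗ[C] C := v.toIntLinearMap.liftBaseChange C
  let wC : C ⊗[ℤ] Λ →ₗ[C] C := w.toIntLinearMap.liftBaseChange C
  have hWD : ∀ c, axW C x c D = vC c • a + wC c • b := by
    intro c
    induction c with
    | zero => simp
    | tmul s l =>
      rw [axW_tmul, hx, mul_div_cancel_left₀ _ (ax_ne x l)]
      simp [vC, wC, mul_smul]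
    | add c c' h h' =>
      simp only [map_add, Pi.add_apply, h, h', add_smul]; abel
  let LC : Submodule C (C ⊗[ℤ] Λ) := LinearMap.range (L.subtype.baseChange C)
  have hLC : finrank C LC ≤ finrank ℤ L :=
    (LinearMap.finrank_range_le _).trans (Module.finrank_baseChange).le
  have hker : ∀ c, axW C x c = 0 → c ∈ LC := by
    intro c hc
    obtain ⟨m, γ, n, hγ, rfl⟩ := ax_decomp c
    have h1 := (h C F (Fin m) γ (fun k => x (n k)) 0 hγ (fun k => ax_ne x _) (by
      intro δ
      have := congrFun hc δ
      simpa only [map_sum, Finset.sum_apply, axW_tmul, map_zero, Pi.zero_apply] using this)).1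
    refine Submodule.sum_mem _ fun k _ => ?_
    have h2 := ax_alg D (h1 k)
    rw [hx] at h2
    have h3 := hab _ _ ((mul_eq_zero.1 h2).resolve_left (ax_ne x _))
    exact ⟨γ k ⊗ₜ ⟨n k, (hL _).2 h3⟩, rfl⟩
  obtain ⟨Q, hQ⟩ := LC.exists_isCompl
  let K : Submodule C (C ⊗[ℤ] Λ) := LinearMap.ker (vC.prod wC)
  have hK : finrank ℤ Λ ≤ finrank C K + 2 := by
    have h1 := LinearMap.finrank_range_add_finrank_ker (vC.prod wC)
    have h2 : finrank C (LinearMap.range (vC.prod wC)) ≤ 2 :=
      (Submodule.finrank_le _).trans (by simp)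
    rw [Module.finrank_baseChange] at h1
    change _ + finrank C K = _ at h1
    omega
  have hKQ : finrank ℤ Λ ≤ finrank C ↥(K ⊓ Q) + finrank ℤ L + 2 := by
    have h1 := Submodule.finrank_sup_add_finrank_inf_eq K Q
    have h2 := Submodule.finrank_add_eq_of_isCompl hQ
    have h3 := Submodule.finrank_le (K ⊔ Q)
    omega
  let B := Module.finBasis C ↥(K ⊓ Q)
  have hBD : ∀ k, axW C x (B k) D = 0 := by
    intro k
    have h1 : (vC.prod wC) (B k) = 0 := (B k).2.1
    have h2 : vC (B k) = 0 := congrArg Prod.fst h1
    have h3 : wC (B k) = 0 := congrArg Prod.snd h1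
    rw [hWD, h2, h3]; simp
  have hBC : LinearIndependent C fun k => axW C x (B k) := by
    refine B.linearIndependent.map' ((axW C x).comp (K ⊓ Q).subtype) ?_
    rw [LinearMap.ker_eq_bot']
    intro c hc
    have := hQ.disjoint
    rw [Submodule.disjoint_def] at this
    exact Subtype.ext (this _ (hker _ hc) c.2.2)
  have hBF : LinearIndependent F fun k => axW C x (B k) :=
    ax_horiz D hD _ (fun k δ => by rw [← axW_closed, hBD, map_zero, sub_zero]) hBC
  obtain ⟨l₂, hl₂⟩ : ∃ l₂, axw C x l₂ D ≠ 0 := by
    refine ⟨if v l₀ = 0 then l₁ else l₀, fun h0 => ?_⟩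
    rw [axw_apply, hx, mul_div_cancel_left₀ _ (ax_ne x _)] at h0
    have := hab _ _ h0
    split_ifs at this with h1
    · exact hl (by rw [h1, this.1]; simp)
    · exact h1 this.1
  have hind : LinearIndependent F
      (Fin.cons (axw C x l₂) (fun k => axW C x (B k)) : Fin (_ + 1) → Derivation C F F → F) := by
    rw [linearIndependent_finCons]
    refine ⟨hBF, fun hmem => hl₂ ?_⟩
    have : Submodule.span F (Set.range fun k => axW C x (B k)) ≤
        LinearMap.ker (LinearMap.proj D : (Derivation C F F → F) →ₗ[F] F) := by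
      rw [Submodule.span_le]
      rintro _ ⟨k, rfl⟩
      exact hBD k
    exact this hmem
  let e := Module.finBasis ℤ Λ
  obtain ⟨κ, ι, hι, hsp, hli⟩ := exists_linearIndependent' F fun i => axw C x (e i)
  have : Finite κ := Finite.of_injective ι hι
  let _ := Fintype.ofFinite κ
  have hw : ∀ l, axw C x l ∈ Submodule.span F (Set.range fun i => axw C x (e i)) := by
    intro l
    rw [← e.sum_repr l, map_sum]
    refine Submodule.sum_mem _ fun i _ => ?_
    rw [map_zsmul]
    exact zsmul_mem (Submodule.subset_span (Set.mem_range_self i)) _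
  have hW : ∀ c, axW C x c ∈ Submodule.span F (Set.range fun i => axw C x (e i)) := by
    intro c
    induction c with
    | zero => simp
    | tmul s l =>
      have : axW C x (s ⊗ₜ l) = algebraMap C F s • axw C x l := by
        rw [algebraMap_smul]; rfl
      rw [this]
      exact Submodule.smul_mem _ _ (hw l)
    | add c c' h h' => rw [map_add]; exact add_mem h h'
  have hcard : finrank C ↥(K ⊓ Q) + 1 ≤ Fintype.card κ := by
    have h1 := linearIndependent_le_span' _ hind (Set.range ((fun i => axw C x (e i)) ∘ ι)) (by
      rw [hsp]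
      rintro _ ⟨k, rfl⟩
      refine Fin.cases ?_ (fun k => ?_) k
      · exact hw _
      · exact hW _)
    simp only [Cardinal.mk_fintype, Fintype.card_fin, Nat.cast_le] at h1
    exact h1.trans (Fintype.card_range_le _)
  refine ⟨Fintype.card κ, fun k => e (ι ((Fintype.equivFin κ).symm k)), by omega, ?_⟩
  exact ax_indep x _ (hli.comp _ (Fintype.equivFin κ).symm.injective)

end Pool.Agent.MP_c1891a_nt.G43
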